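import Pool.Agent.N273.KE.Fin

/-!
# Products of conjugacy classes under Kervaire extensions: coefficients in a nilpotent subgroup

For every group `G`, every nilpotent subgroup `A` of `G` and every system with coefficients in `A`
whose determinant `Δ` is such that `x ↦ x ^ Δ` is a bijection of `A` (for instance `Δ = ±1` and any
nilpotent `A`, or `A` finite of order prime to `Δ`, or `A` torsion free and divisible): a product of
conjugates of elements of `G` which is trivial in the Kervaire extension is trivial in `G` for a
suitable choice of the conjugates. In fact the system has a solution in `A`.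
-/

set_option autoImplicit false

namespace Pool.Agent.Results.MP_9999b4_al.NilpotentCoefficients

theorem result :
    ∀ (G : Type) [Group G] (A : Subgroup G), Group.IsNilpotent A →
      ∀ (n : ℕ) (w : Fin n → Monoid.Coprod G (FreeGroup (Fin n))),
      (∀ j, w j ∈ Subgroup.closure ((Monoid.Coprod.inl : G →* Monoid.Coprod G
          (FreeGroup (Fin n))) '' (A : Set G) ∪
        Set.range (Monoid.Coprod.inr : FreeGroup (Fin n) →* Monoid.Coprod G
          (FreeGroup (Fin n))))) →
      (Function.Bijective fun x : A => x ^ (Matrix.of (fun i j : Fin n => Multiplicative.toAdd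
        (Monoid.Coprod.lift (1 : G →* Multiplicative ℤ)
          (FreeGroup.lift (fun k : Fin n =>
            if k = i then Multiplicative.ofAdd (1 : ℤ) else 1)) (w j)))).det) →
      ∀ (r : ℕ) (g : Fin r → G),
        (∃ h : Fin r → (Monoid.Coprod G (FreeGroup (Fin n)) ⧸
              Subgroup.normalClosure (Set.range w)),
          (List.ofFn (fun i => h i *
              QuotientGroup.mk' (Subgroup.normalClosure (Set.range w))
                (Monoid.Coprod.inl (g i)) * (h i)⁻¹)).prod = 1) →
        ∃ x : Fin r → G, (List.ofFn (fun i => x i * g i * (x i)⁻¹)).prod = 1 := by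
  intro G _ A hA n w hw hbij
  exact Pool.Agent.N273.KE.dp_nilp w A hbij hw

end Pool.Agent.Results.MP_9999b4_al.NilpotentCoefficients
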